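import Mathlib

set_option autoImplicit false

/-!
# Admissible Banach spaces have modulus of convexity of power type two

If the modulus of convexity of `X` is not of power type two, there are chords of the unit sphere
which are almost flat compared with the square of their length.  A rank-one perturbation
`z ↦ z + (1 - cos (g z - θ)) / 2 • v` of the identity bends such a chord so much that small balls
have nonconvex images.  Putting such maps on countably many parallel strips one obtains one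
Lipschitz-open, second order Lipschitz map which is not locally convex.
-/

namespace Pool.Agent.Results.MP_122452_an.AdmissiblePowerTypeTwo

open Metric

section Definitions

variable {X : Type*} [NormedAddCommGroup X] [NormedSpace ℝ X]

/-- The modulus of convexity (an infimum in the extended reals). -/
noncomputable def modConv (X : Type*) [NormedAddCommGroup X] [NormedSpace ℝ X] (t : ℝ) : EReal :=
  ⨅ (x : X) (y : X) (_ : ‖x‖ = 1 ∧ ‖y‖ = 1 ∧ t ≤ ‖x - y‖),
    ((1 - ‖(1 / 2 : ℝ) • (x + y)‖ : ℝ) : EReal)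

/-- The modulus of convexity is of power type two. -/
def HasPowerTypeTwo (X : Type*) [NormedAddCommGroup X] [NormedSpace ℝ X] : Prop :=
  ∃ L : ℝ, 0 < L ∧ ∀ t ∈ Set.Icc (0 : ℝ) 2, ((L * t ^ 2 : ℝ) : EReal) ≤ modConv X t

/-- `f` is second order Lipschitz on `U`. -/
def SecondOrderLipschitz (U : Set X) (f : X → X) : Prop :=
  ∃ K : ℝ, ∀ t : ℝ, 0 < t → ∀ x h : X, ‖h‖ ≤ t → segment ℝ (x - h) (x + h) ⊆ U →
    ‖f (x + h) - (2 : ℝ) • f x + f (x - h)‖ / t ^ 2 ≤ K

/-- `f` is Lipschitz-open on `U`. -/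
def LipschitzOpen (U : Set X) (f : X → X) : Prop :=
  ∃ c : ℝ, 0 < c ∧ ∀ x ∈ U, ∀ ε : ℝ, 0 < ε → ball x ε ⊆ U →
    ball (f x) (c * ε) ⊆ f '' ball x ε

/-- `f` is locally convex on `U`. -/
def LocallyConvexMap (U : Set X) (f : X → X) : Prop :=
  ∃ c : ℝ, 0 < c ∧ ∀ ε ∈ Set.Ioc (0 : ℝ) c, ∀ x ∈ U, ball x ε ⊆ U → Convex ℝ (f '' ball x ε)

/-- Admissible spaces. -/
def Admissible (X : Type*) [NormedAddCommGroup X] [NormedSpace ℝ X] : Prop :=
  ∀ (U : Set X) (f : X → X), IsOpen U → LipschitzOpen U f → SecondOrderLipschitz U f →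
    LocallyConvexMap U f

end Definitions

variable {X : Type*} [NormedAddCommGroup X] [NormedSpace ℝ X]

/-- The scalar part of the perturbation. -/
noncomputable def φ (g : X →L[ℝ] ℝ) (θ : ℝ) (z : X) : ℝ := (1 - Real.cos (g z - θ)) / 2

theorem φ_nonneg (g : X →L[ℝ] ℝ) (θ : ℝ) (z : X) : 0 ≤ φ g θ z := by
  unfold φ
  linarith [Real.cos_le_one (g z - θ)]

theorem φ_le_one (g : X →L[ℝ] ℝ) (θ : ℝ) (z : X) : φ g θ z ≤ 1 := by
  unfold φ
  linarith [Real.neg_one_le_cos (g z - θ)]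

theorem continuous_φ (g : X →L[ℝ] ℝ) (θ : ℝ) : Continuous (φ g θ) := by
  unfold φ
  fun_prop

theorem abs_g_le {g : X →L[ℝ] ℝ} (hg : ‖g‖ = 1) (z : X) : |g z| ≤ ‖z‖ := by
  have := g.le_opNorm z
  rwa [hg, one_mul, Real.norm_eq_abs] at this

theorem φ_lipschitz {g : X →L[ℝ] ℝ} (hg : ‖g‖ = 1) (θ : ℝ) (z w : X) :
    |φ g θ z - φ g θ w| ≤ ‖z - w‖ / 2 := by
  unfold φ
  have h1 : |Real.cos (g w - θ) - Real.cos (g z - θ)| ≤ |(g w - θ) - (g z - θ)| :=
    Real.abs_cos_sub_cos_le _ _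
  have h2 : (g w - θ) - (g z - θ) = -(g (z - w)) := by rw [map_sub]; ring
  rw [h2, abs_neg] at h1
  have h3 := abs_g_le hg (z - w)
  have h4 : (1 - Real.cos (g z - θ)) / 2 - (1 - Real.cos (g w - θ)) / 2 =
      (Real.cos (g w - θ) - Real.cos (g z - θ)) / 2 := by ring
  rw [h4, abs_div, abs_two]
  linarith

/-- The perturbation of the identity. -/
noncomputable def F (g : X →L[ℝ] ℝ) (θ : ℝ) (v : X) (z : X) : X := z + φ g θ z • v

theorem F_open {g : X →L[ℝ] ℝ} (hg : ‖g‖ = 1) (θ : ℝ) {v : X} (hv : ‖v‖ = 1) (x : X) {ε : ℝ} :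
    ball (F g θ v x) (1 / 2 * ε) ⊆ F g θ v '' ball x ε := by
  intro y hy
  rw [mem_ball, dist_eq_norm] at hy
  -- solve the one-dimensional equation
  have hcont : ContinuousOn (fun τ : ℝ => τ - φ g θ (y - τ • v)) (Set.Icc 0 1) := by
    apply Continuous.continuousOn
    have h1 := continuous_φ g θ
    fun_prop
  have hivt := intermediate_value_Icc (zero_le_one : (0 : ℝ) ≤ 1) hcont
  have h0 : (0 : ℝ) ∈ Set.Icc ((0 : ℝ) - φ g θ (y - (0 : ℝ) • v)) (1 - φ g θ (y - (1 : ℝ) • v)) :=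
    ⟨by linarith [φ_nonneg g θ (y - (0 : ℝ) • v)], by linarith [φ_le_one g θ (y - (1 : ℝ) • v)]⟩
  obtain ⟨τ, _, hτ⟩ := hivt h0
  have hτ' : φ g θ (y - τ • v) = τ := by
    have : τ - φ g θ (y - τ • v) = 0 := hτ
    linarith
  refine ⟨y - τ • v, ?_, ?_⟩
  · rw [mem_ball, dist_eq_norm]
    have h1 : F g θ v (y - τ • v) = y := by
      unfold F
      rw [hτ']
      abel
    have h2 : y - τ • v - x = (y - F g θ v x) - (φ g θ (y - τ • v) - φ g θ x) • v := by
      unfold F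
      rw [hτ', sub_smul]
      abel
    have h3 : ‖y - τ • v - x‖ ≤ ‖y - F g θ v x‖ + ‖y - τ • v - x‖ / 2 := by
      calc ‖y - τ • v - x‖ = ‖(y - F g θ v x) - (φ g θ (y - τ • v) - φ g θ x) • v‖ := by
            rw [← h2]
        _ ≤ ‖y - F g θ v x‖ + ‖(φ g θ (y - τ • v) - φ g θ x) • v‖ := norm_sub_le _ _
        _ ≤ ‖y - F g θ v x‖ + ‖y - τ • v - x‖ / 2 := by
            rw [norm_smul, hv, mul_one, Real.norm_eq_abs]
            have := φ_lipschitz hg θ (y - τ • v) x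
            linarith
    linarith
  · unfold F
    rw [hτ']
    abel

theorem F_second {g : X →L[ℝ] ℝ} (hg : ‖g‖ = 1) (θ : ℝ) {v : X} (hv : ‖v‖ = 1) (x h : X) :
    ‖F g θ v (x + h) - (2 : ℝ) • F g θ v x + F g θ v (x - h)‖ ≤ ‖h‖ ^ 2 / 2 := by
  have h1 : F g θ v (x + h) - (2 : ℝ) • F g θ v x + F g θ v (x - h) =
      (Real.cos (g x - θ) * (1 - Real.cos (g h))) • v := by
    have h2 : φ g θ (x + h) - 2 * φ g θ x + φ g θ (x - h) =
        Real.cos (g x - θ) * (1 - Real.cos (g h)) := by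
      unfold φ
      have e1 : g (x + h) - θ = (g x - θ) + g h := by rw [map_add]; ring
      have e2 : g (x - h) - θ = (g x - θ) - g h := by rw [map_sub]; ring
      rw [e1, e2, Real.cos_add, Real.cos_sub (g x - θ) (g h)]
      ring
    rw [← h2]
    unfold F
    module
  rw [h1, norm_smul, hv, mul_one, Real.norm_eq_abs, abs_mul]
  have h2 := Real.abs_cos_le_one (g x - θ)
  have h3 : 0 ≤ 1 - Real.cos (g h) := by linarith [Real.cos_le_one (g h)]
  have h4 : 1 - Real.cos (g h) ≤ (g h) ^ 2 / 2 := by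
    linarith [Real.one_sub_sq_div_two_le_cos (x := g h)]
  have h5 : (g h) ^ 2 ≤ ‖h‖ ^ 2 := by
    rw [← sq_abs (g h)]
    exact pow_le_pow_left₀ (abs_nonneg _) (abs_g_le hg h) 2
  rw [abs_of_nonneg h3]
  calc |Real.cos (g x - θ)| * (1 - Real.cos (g h)) ≤ 1 * (1 - Real.cos (g h)) :=
        mul_le_mul_of_nonneg_right h2 h3
    _ ≤ ‖h‖ ^ 2 / 2 := by linarith

/-- The key estimate: the image of a small ball with an almost flat chord is not convex. -/
theorem not_convex {x y : X} (hx : ‖x‖ = 1) (hy : ‖y‖ = 1) {L : ℝ} (hL : 0 < L)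
    (hL1 : L ≤ 1 / 1000) (hflat : 1 - ‖(1 / 2 : ℝ) • (x + y)‖ < L * ‖x - y‖ ^ 2)
    (hxy : 0 < ‖x - y‖) {g : X →L[ℝ] ℝ} (hg : ‖g‖ = 1) (hgxy : g (x - y) = ‖x - y‖) (z₀ : X) :
    ¬ Convex ℝ (F g (g (z₀ + (50 * L) • ((1 / 2 : ℝ) • (x + y))))
      (‖(1 / 2 : ℝ) • (x + y)‖⁻¹ • ((1 / 2 : ℝ) • (x + y))) ''
        ball z₀ (50 * L * (1 + L * ‖x - y‖ ^ 2))) := by
  intro hconv
  set t : ℝ := ‖x - y‖ with ht
  have ht2 : t ≤ 2 := by
    rw [ht]
    refine (norm_sub_le x y).trans ?_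
    rw [hx, hy]; norm_num
  have hLt : L * t ^ 2 ≤ 4 / 1000 := by nlinarith
  set c : X := (1 / 2 : ℝ) • (x + y) with hc
  set μ : ℝ := ‖c‖ with hμ
  have hμ0 : 0 < μ := by linarith
  have hμ1 : μ ≤ 1 := by
    rw [hμ, hc, norm_smul]
    have := norm_add_le x y
    rw [hx, hy] at this
    norm_num
    linarith
  set r : ℝ := 50 * L with hr
  have hr0 : 0 < r := by positivity
  have hr1 : r ≤ 1 / 20 := by linarith
  set m : X := z₀ + r • c with hm
  set θ : ℝ := g m with hθ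
  set v : X := μ⁻¹ • c with hv
  have hv1 : ‖v‖ = 1 := by
    rw [hv, norm_smul, norm_inv, Real.norm_eq_abs, abs_of_pos hμ0, ← hμ,
      inv_mul_cancel₀ hμ0.ne']
  have hcv : c = μ • v := by rw [hv, smul_inv_smul₀ hμ0.ne']
  set ε : ℝ := r * (1 + L * t ^ 2) with hε
  have hLt0 : 0 < L * t ^ 2 := by positivity
  have hrε : r < ε := by
    rw [hε]
    have := mul_pos hr0 hLt0
    linarith
  have hε1 : ε ≤ 1 / 10 := by
    rw [hε]
    nlinarith
  -- the end points of the chord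
  set D : ℝ := (1 - Real.cos (r * t / 2)) / 2 with hD
  have ha : φ g θ (z₀ + r • x) = D := by
    unfold φ
    have : g (z₀ + r • x) - θ = r * t / 2 := by
      rw [hθ, ← map_sub]
      have e1 : z₀ + r • x - m = (r / 2) • (x - y) := by
        rw [hm, hc]
        have e2 : (r / 2) • (x - y) = r • x - r • ((1 / 2 : ℝ) • (x + y)) := by
          rw [smul_smul, smul_add, smul_sub]
          have e3 : r • x = (r / 2) • x + (r / 2) • x := by rw [← add_smul]; congr 1; ring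
          have e4 : r * (1 / 2) = r / 2 := by ring
          rw [e3, e4]
          abel
        rw [e2]; abel
      rw [e1, map_smul, hgxy, smul_eq_mul]
      ring
    rw [this]
  have hb : φ g θ (z₀ + r • y) = D := by
    unfold φ
    have : g (z₀ + r • y) - θ = -(r * t / 2) := by
      rw [hθ, ← map_sub]
      have e1 : z₀ + r • y - m = (-(r / 2)) • (x - y) := by
        rw [hm, hc]
        have e2 : (-(r / 2)) • (x - y) = r • y - r • ((1 / 2 : ℝ) • (x + y)) := by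
          rw [smul_smul, smul_add, smul_sub, neg_smul, neg_smul]
          have e3 : r • y = (r / 2) • y + (r / 2) • y := by rw [← add_smul]; congr 1; ring
          have e4 : r * (1 / 2) = r / 2 := by ring
          rw [e3, e4]
          abel
        rw [e2]; abel
      rw [e1, map_smul, hgxy, smul_eq_mul]
      ring
    rw [this, Real.cos_neg]
  have hab : z₀ + r • x ∈ ball z₀ ε := by
    rw [mem_ball, dist_eq_norm, add_sub_cancel_left, norm_smul, hx, mul_one, Real.norm_eq_abs,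
      abs_of_pos hr0]
    exact hrε
  have hbb : z₀ + r • y ∈ ball z₀ ε := by
    rw [mem_ball, dist_eq_norm, add_sub_cancel_left, norm_smul, hy, mul_one, Real.norm_eq_abs,
      abs_of_pos hr0]
    exact hrε
  have hmid := hconv ⟨_, hab, rfl⟩ ⟨_, hbb, rfl⟩ (show (0 : ℝ) ≤ 1 / 2 by norm_num)
    (show (0 : ℝ) ≤ 1 / 2 by norm_num) (by norm_num)
  obtain ⟨w, hw, hw'⟩ := hmid
  have hsum : (1 / 2 : ℝ) • F g θ v (z₀ + r • x) + (1 / 2 : ℝ) • F g θ v (z₀ + r • y) =
      m + D • v := by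
    unfold F
    rw [ha, hb, hm, hc]
    module
  rw [hsum] at hw'
  set τ : ℝ := D - φ g θ w with hτ
  have hwm : w = m + τ • v := by
    have h1 : w + φ g θ w • v = m + D • v := hw'
    have h2 : w = m + D • v - φ g θ w • v := eq_sub_of_add_eq h1
    rw [hτ, sub_smul, ← add_sub_assoc]
    exact h2
  have hφw : φ g θ w ≤ τ ^ 2 / 4 := by
    have h1 : g w - θ = τ * g v := by
      rw [hwm, map_add, map_smul, hθ, smul_eq_mul]; ring
    have h2 := Real.one_sub_sq_div_two_le_cos (x := g w - θ)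
    have h3 : (g w - θ) ^ 2 ≤ τ ^ 2 := by
      rw [h1, mul_pow]
      have h4 := abs_g_le hg v
      rw [hv1] at h4
      have h5 : (g v) ^ 2 ≤ 1 := by
        rw [← sq_abs]
        exact pow_le_one₀ (abs_nonneg _) h4
      have := mul_le_mul_of_nonneg_left h5 (sq_nonneg τ)
      linarith
    unfold φ
    linarith
  have hwball : |r * μ + τ| < ε := by
    rw [mem_ball, dist_eq_norm] at hw
    have h1 : w - z₀ = (r * μ + τ) • v := by
      rw [hwm, hm, hcv, smul_smul, add_smul]; abel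
    rw [h1, norm_smul, hv1, mul_one, Real.norm_eq_abs] at hw
    exact hw
  rw [abs_lt] at hwball
  obtain ⟨hw1, hw2⟩ := hwball
  have hrμ : r * (1 - L * t ^ 2) < r * μ := mul_lt_mul_of_pos_left (by linarith) hr0
  have hrμ' : r * μ ≤ r := by
    have := mul_le_mul_of_nonneg_left hμ1 hr0.le
    linarith
  have e1 : τ < 2 * (r * (L * t ^ 2)) := by
    have : ε = r + r * (L * t ^ 2) := by rw [hε]; ring
    have h2 : r * (1 - L * t ^ 2) = r - r * (L * t ^ 2) := by ring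
    linarith
  have e2 : -1 < τ := by linarith
  have e3 : D ≤ τ + τ ^ 2 / 4 := by
    have : D = τ + φ g θ w := by rw [hτ]; ring
    linarith
  have e4 : r ^ 2 * t ^ 2 / 20 ≤ D := by
    have hu : |r * t / 2| ≤ 1 := by
      rw [abs_of_nonneg (by positivity)]
      nlinarith
    have h1 := (abs_le.mp (Real.cos_bound hu)).2
    have h2 : |r * t / 2| ^ 4 ≤ |r * t / 2| ^ 2 := pow_le_pow_of_le_one (abs_nonneg _) hu (by norm_num)
    rw [sq_abs] at h2
    rw [hD]
    have h3 : (r * t / 2) ^ 2 = r ^ 2 * t ^ 2 / 4 := by ring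
    rw [h3] at h1 h2
    linarith
  have e5 : 0 < D := lt_of_lt_of_le (by positivity) e4
  have e6 : 0 < τ := by
    by_contra h
    push Not at h
    nlinarith
  have e7 : τ ≤ 1 := by
    have : r * (L * t ^ 2) ≤ 1 / 20 * (4 / 1000) := mul_le_mul hr1 hLt hLt0.le (by norm_num)
    linarith
  have e8 : D ≤ 5 / 4 * τ := by nlinarith
  have e9 : r ^ 2 * t ^ 2 / 20 < 5 / 2 * (r * (L * t ^ 2)) := by linarith
  have e10 : r ^ 2 * t ^ 2 / 20 = 5 / 2 * (r * (L * t ^ 2)) := by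
    rw [hr]; ring
  linarith

/-- Failure of power type two yields almost flat chords. -/
theorem exists_chord (h : ¬ HasPowerTypeTwo X) {L : ℝ} (hL : 0 < L) :
    ∃ x y : X, ‖x‖ = 1 ∧ ‖y‖ = 1 ∧ 0 < ‖x - y‖ ∧
      1 - ‖(1 / 2 : ℝ) • (x + y)‖ < L * ‖x - y‖ ^ 2 := by
  by_contra hcon
  push Not at hcon
  apply h
  refine ⟨L, hL, fun t ht => ?_⟩
  apply le_iInf
  intro x
  apply le_iInf
  intro y
  apply le_iInf
  rintro ⟨hx, hy, hxy⟩
  rw [EReal.coe_le_coe_iff]
  rcases eq_or_lt_of_le ht.1 with h0 | h0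
  · rw [← h0]
    have h1 : ‖(1 / 2 : ℝ) • (x + y)‖ ≤ 1 := by
      rw [norm_smul]
      have := norm_add_le x y
      rw [hx, hy] at this
      norm_num
      linarith
    have h2 : L * (0 : ℝ) ^ 2 = 0 := by ring
    rw [h2]
    linarith
  · have h1 := hcon x y hx hy (lt_of_lt_of_le h0 hxy)
    have h2 : t ^ 2 ≤ ‖x - y‖ ^ 2 := pow_le_pow_left₀ ht.1 hxy 2
    have h3 := mul_le_mul_of_nonneg_left h2 hL.le
    linarith

theorem strip_of_segment {ℓ : X →L[ℝ] ℝ} {x z : X} {n : ℕ}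
    (hseg : ∀ p ∈ segment ℝ x z, ∃ k : ℕ, |ℓ p - 4 * k| < 1) (hx : |ℓ x - 4 * n| < 1) :
    |ℓ z - 4 * n| < 1 := by
  by_contra hz
  have hx' := abs_lt.mp hx
  -- a boundary value of the strip is attained on the segment
  have key : ∀ b : ℝ, (∀ k : ℕ, 1 ≤ |b - 4 * (k : ℝ)|) → ℓ x < b → b ≤ ℓ z → False := by
    intro b hb h1 h2
    have hpos : 0 < ℓ z - ℓ x := by linarith
    set s : ℝ := (b - ℓ x) / (ℓ z - ℓ x) with hs
    have hs0 : 0 ≤ s := div_nonneg (by linarith) hpos.le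
    have hs1 : s ≤ 1 := by rw [hs, div_le_one hpos]; linarith
    obtain ⟨k, hk⟩ := hseg ((1 - s) • x + s • z) ⟨1 - s, s, by linarith, hs0, by ring, rfl⟩
    have h3 : ℓ ((1 - s) • x + s • z) = b := by
      rw [map_add, map_smul, map_smul, smul_eq_mul, smul_eq_mul]
      have : s * (ℓ z - ℓ x) = b - ℓ x := div_mul_cancel₀ _ hpos.ne'
      linarith
    rw [h3] at hk
    exact absurd hk (not_lt.mpr (hb k))
  have key' : ∀ b : ℝ, (∀ k : ℕ, 1 ≤ |b - 4 * (k : ℝ)|) → b < ℓ x → ℓ z ≤ b → False := by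
    intro b hb h1 h2
    have hpos : 0 < ℓ x - ℓ z := by linarith
    set s : ℝ := (ℓ x - b) / (ℓ x - ℓ z) with hs
    have hs0 : 0 ≤ s := div_nonneg (by linarith) hpos.le
    have hs1 : s ≤ 1 := by rw [hs, div_le_one hpos]; linarith
    obtain ⟨k, hk⟩ := hseg ((1 - s) • x + s • z) ⟨1 - s, s, by linarith, hs0, by ring, rfl⟩
    have h3 : ℓ ((1 - s) • x + s • z) = b := by
      rw [map_add, map_smul, map_smul, smul_eq_mul, smul_eq_mul]
      have : s * (ℓ x - ℓ z) = ℓ x - b := div_mul_cancel₀ _ hpos.ne'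
      linarith
    rw [h3] at hk
    exact absurd hk (not_lt.mpr (hb k))
  rw [not_lt, le_abs] at hz
  rcases hz with hz | hz
  · refine key (4 * n + 1) (fun k => ?_) (by linarith) (by linarith)
    rcases le_or_gt k n with h | h
    · have : (k : ℝ) ≤ n := by exact_mod_cast h
      rw [le_abs]; left; linarith
    · have : (n : ℝ) + 1 ≤ k := by exact_mod_cast h
      rw [le_abs]; right; linarith
  · refine key' (4 * n - 1) (fun k => ?_) (by linarith) (by linarith)
    rcases lt_or_ge k n with h | h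
    · have : (k : ℝ) + 1 ≤ n := by exact_mod_cast h
      rw [le_abs]; left; linarith
    · have : (n : ℝ) ≤ k := by exact_mod_cast h
      rw [le_abs]; right; linarith

theorem floor_eq {a : ℝ} {n : ℕ} (h : |a - 4 * n| < 1) : ⌊(a + 1) / 4⌋₊ = n := by
  rw [abs_lt] at h
  rw [Nat.floor_eq_iff (by have : (0 : ℝ) ≤ n := n.cast_nonneg; linarith)]
  constructor <;> linarith

/-- Every admissible space has modulus of convexity of power type two. -/
theorem result {X : Type*} [NormedAddCommGroup X] [NormedSpace ℝ X] [CompleteSpace X]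
    (hX : Admissible X) : HasPowerTypeTwo X := by
  by_contra hpt
  -- the parameters
  set L : ℕ → ℝ := fun n => 1 / (1000 * ((n : ℝ) + 1)) with hLdef
  have hL0 : ∀ n, 0 < L n := fun n => by rw [hLdef]; positivity
  have hL1 : ∀ n, L n ≤ 1 / 1000 := fun n => by
    rw [hLdef]
    apply one_div_le_one_div_of_le (by norm_num)
    have : (0 : ℝ) ≤ n := n.cast_nonneg
    linarith
  choose x y hx hy hxy hflat using fun n => exists_chord (X := X) hpt (hL0 n)
  have hg : ∀ n, ∃ g : X →L[ℝ] ℝ, ‖g‖ = 1 ∧ g (x n - y n) = ‖x n - y n‖ := by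
    intro n
    obtain ⟨g, hg1, hg2⟩ := exists_dual_vector ℝ (x n - y n) (hxy n).ne'
    exact ⟨g, hg1, hg2⟩
  choose g hg1 hg2 using hg
  obtain ⟨ℓ, hℓ1, hℓ2⟩ := exists_dual_vector ℝ (x 0) (by rw [hx]; exact one_ne_zero)
  have hℓ2' : ℓ (x 0) = 1 := by rw [hℓ2, hx]; rfl
  set z₀ : ℕ → X := fun n => (4 * n : ℝ) • x 0 with hz₀
  have hℓz : ∀ n, ℓ (z₀ n) = 4 * n := fun n => by
    rw [hz₀]
    change ℓ ((4 * n : ℝ) • x 0) = _
    rw [map_smul, hℓ2', smul_eq_mul, mul_one]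
  set c : ℕ → X := fun n => (1 / 2 : ℝ) • (x n + y n) with hc
  set θ : ℕ → ℝ := fun n => g n (z₀ n + (50 * L n) • c n) with hθ
  set v : ℕ → X := fun n => ‖c n‖⁻¹ • c n with hv
  have hcpos : ∀ n, 0 < ‖c n‖ := by
    intro n
    have h1 := hflat n
    have h2 : ‖x n - y n‖ ≤ 2 := by
      refine (norm_sub_le _ _).trans ?_
      rw [hx, hy]; norm_num
    have h3 : L n * ‖x n - y n‖ ^ 2 ≤ 4 / 1000 := by
      have h4 : ‖x n - y n‖ ^ 2 ≤ 4 := by
        have := pow_le_pow_left₀ (norm_nonneg _) h2 2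
        linarith
      have h5 := mul_le_mul (hL1 n) h4 (sq_nonneg _) (by norm_num : (0 : ℝ) ≤ 1 / 1000)
      linarith
    have h4 : ‖c n‖ = ‖(1 / 2 : ℝ) • (x n + y n)‖ := rfl
    rw [h4]
    linarith
  have hv1 : ∀ n, ‖v n‖ = 1 := by
    intro n
    change ‖‖c n‖⁻¹ • c n‖ = 1
    rw [norm_smul, norm_inv, norm_norm, inv_mul_cancel₀ (hcpos n).ne']
  -- the open set and the map
  set U : Set X := {z | ∃ n : ℕ, |ℓ z - 4 * n| < 1} with hU
  set f : X → X := fun z => F (g ⌊(ℓ z + 1) / 4⌋₊) (θ ⌊(ℓ z + 1) / 4⌋₊) (v ⌊(ℓ z + 1) / 4⌋₊) z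
    with hf
  have hfeq : ∀ (n : ℕ) (z : X), |ℓ z - 4 * n| < 1 → f z = F (g n) (θ n) (v n) z := by
    intro n z hz
    have h1 := floor_eq hz
    change F (g ⌊(ℓ z + 1) / 4⌋₊) (θ ⌊(ℓ z + 1) / 4⌋₊) (v ⌊(ℓ z + 1) / 4⌋₊) z = _
    rw [h1]
  have hUopen : IsOpen U := by
    have : U = ⋃ n : ℕ, {z | |ℓ z - 4 * n| < 1} := by
      ext z; simp [hU]
    rw [this]
    refine isOpen_iUnion fun n => isOpen_lt ?_ continuous_const
    fun_prop
  have hball : ∀ (z : X) (ε : ℝ) (n : ℕ), ball z ε ⊆ U → 0 < ε → |ℓ z - 4 * n| < 1 →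
      ∀ w ∈ ball z ε, |ℓ w - 4 * n| < 1 := by
    intro z ε n hzU hε hz w hw
    apply strip_of_segment _ hz
    intro p hp
    exact hzU ((convex_ball z ε).segment_subset (mem_ball_self hε) hw hp)
  have himage : ∀ (z : X) (ε : ℝ) (n : ℕ), ball z ε ⊆ U → 0 < ε → |ℓ z - 4 * n| < 1 →
      f '' ball z ε = F (g n) (θ n) (v n) '' ball z ε := by
    intro z ε n hzU hε hz
    apply Set.image_congr
    intro w hw
    exact hfeq n w (hball z ε n hzU hε hz w hw)
  have hLip : LipschitzOpen U f := by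
    refine ⟨1 / 2, by norm_num, ?_⟩
    rintro z ⟨n, hn⟩ ε hε hzU
    rw [himage z ε n hzU hε hn, hfeq n z hn]
    exact F_open (hg1 n) (θ n) (hv1 n) z
  have hSec : SecondOrderLipschitz U f := by
    refine ⟨1 / 2, ?_⟩
    intro t ht z h hh hseg
    have hz : z ∈ segment ℝ (z - h) (z + h) :=
      ⟨1 / 2, 1 / 2, by norm_num, by norm_num, by norm_num, by
        rw [smul_sub, smul_add]
        have : z = (1 / 2 : ℝ) • z + (1 / 2 : ℝ) • z := by rw [← add_smul]; norm_num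
        nth_rewrite 3 [this]
        abel⟩
    obtain ⟨n, hn⟩ := hseg hz
    have hconv := convex_segment (𝕜 := ℝ) (z - h) (z + h)
    have h1 : |ℓ (z + h) - 4 * n| < 1 := by
      apply strip_of_segment _ hn
      intro p hp
      exact hseg (hconv.segment_subset hz (right_mem_segment ℝ _ _) hp)
    have h2 : |ℓ (z - h) - 4 * n| < 1 := by
      apply strip_of_segment _ hn
      intro p hp
      exact hseg (hconv.segment_subset hz (left_mem_segment ℝ _ _) hp)
    rw [hfeq n _ hn, hfeq n _ h1, hfeq n _ h2, div_le_iff₀ (by positivity)]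
    have h3 := F_second (hg1 n) (θ n) (hv1 n) z h
    have h4 : ‖h‖ ^ 2 ≤ t ^ 2 := pow_le_pow_left₀ (norm_nonneg _) hh 2
    linarith
  obtain ⟨κ, hκ, hκ'⟩ := hX U f hUopen hLip hSec
  -- a large index
  obtain ⟨n, hn⟩ := exists_nat_gt (1 / κ)
  have hn' : 1 / ((n : ℝ) + 1) < κ := by
    rw [div_lt_iff₀ hκ] at hn
    rw [div_lt_iff₀ (by positivity)]
    nlinarith
  set ε : ℝ := 50 * L n * (1 + L n * ‖x n - y n‖ ^ 2) with hε
  have hLt : L n * ‖x n - y n‖ ^ 2 ≤ 4 / 1000 := by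
    have h2 : ‖x n - y n‖ ≤ 2 := by
      refine (norm_sub_le _ _).trans ?_
      rw [hx, hy]; norm_num
    have h4 : ‖x n - y n‖ ^ 2 ≤ 4 := by
      have := pow_le_pow_left₀ (norm_nonneg _) h2 2
      linarith
    have h5 := mul_le_mul (hL1 n) h4 (sq_nonneg _) (by norm_num : (0 : ℝ) ≤ 1 / 1000)
    linarith
  have hLt0 : 0 ≤ L n * ‖x n - y n‖ ^ 2 := mul_nonneg (hL0 n).le (sq_nonneg _)
  have hε0 : 0 < ε := by
    rw [hε]
    have := hL0 n
    positivity
  have hε1 : ε ≤ 100 * L n := by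
    rw [hε]
    have := hL0 n
    nlinarith
  have hε2 : 100 * L n ≤ 1 / ((n : ℝ) + 1) := by
    have h0 : L n = 1 / (1000 * ((n : ℝ) + 1)) := rfl
    rw [h0, mul_one_div]
    rw [div_le_div_iff₀ (by positivity) (by positivity)]
    have : (0 : ℝ) ≤ n := n.cast_nonneg
    linarith
  have hε3 : ε ≤ 1 / 10 := by linarith [hL1 n]
  have hzn : |ℓ (z₀ n) - 4 * n| < 1 := by
    rw [hℓz, sub_self, abs_zero]; exact one_pos
  have hballU : ball (z₀ n) ε ⊆ U := by
    intro w hw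
    refine ⟨n, ?_⟩
    rw [mem_ball, dist_eq_norm] at hw
    have h1 : ℓ w - 4 * n = ℓ (w - z₀ n) := by rw [map_sub, hℓz]
    rw [h1]
    exact lt_of_le_of_lt (abs_g_le hℓ1 _) (by linarith)
  have hconv := hκ' ε ⟨hε0, by linarith⟩ (z₀ n) ⟨n, hzn⟩ hballU
  rw [himage _ _ n hballU hε0 hzn] at hconv
  exact not_convex (hx n) (hy n) (hL0 n) (hL1 n) (hflat n) (hxy n) (hg1 n) (hg2 n) (z₀ n) hconv

end Pool.Agent.Results.MP_122452_an.AdmissiblePowerTypeTwo
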